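import Pool.Agent.P.MP_677f70_an.AdMain
import Pool.Agent.P.MP_677f70_an.NgMain

set_option autoImplicit false

namespace Pool.Agent.Results.MP_677f70_an.AllDirections

/-- A harmonic majorant of the norm gives nothing beyond linear growth in any direction. -/
theorem result (n : ℕ) (ψ : ℝ → ℝ) (h0 : ∀ t, 0 ≤ ψ t)
    (hψ : Filter.Tendsto ψ Filter.atTop Filter.atTop) :
    ∃ D : Set (EuclideanSpace ℝ (Fin (n + 2))),
      IsOpen D ∧ IsConnected D ∧ ¬ Bornology.IsBounded D ∧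
      (∃ h : EuclideanSpace ℝ (Fin (n + 2)) → ℝ,
        InnerProductSpace.HarmonicOnNhd h D ∧ ∀ x ∈ D, ‖x‖ ≤ h x) ∧
      ∀ a : EuclideanSpace ℝ (Fin (n + 2)), a ≠ 0 →
        ¬ (∃ h : EuclideanSpace ℝ (Fin (n + 2)) → ℝ,
          InnerProductSpace.HarmonicOnNhd h D ∧
            ∀ x ∈ D, |inner ℝ a x| * ψ |inner ℝ a x| ≤ h x) :=
  Pool.Agent.P.MP_677f70_an.Ad.allDir n ψ h0 hψ

/-- One domain serves every coordinate. -/
theorem coordinates (n : ℕ) (ψ : ℝ → ℝ) (h0 : ∀ t, 0 ≤ ψ t)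
    (hψ : Filter.Tendsto ψ Filter.atTop Filter.atTop) :
    ∃ D : Set (EuclideanSpace ℝ (Fin (n + 2))),
      IsOpen D ∧ IsConnected D ∧ ¬ Bornology.IsBounded D ∧
      (∃ h : EuclideanSpace ℝ (Fin (n + 2)) → ℝ,
        InnerProductSpace.HarmonicOnNhd h D ∧ ∀ x ∈ D, ‖x‖ ≤ h x) ∧
      ∀ k : Fin (n + 2), ¬ (∃ h : EuclideanSpace ℝ (Fin (n + 2)) → ℝ,
        InnerProductSpace.HarmonicOnNhd h D ∧ ∀ x ∈ D, |x k| * ψ |x k| ≤ h x) := by
  obtain ⟨D, h1, h2, h3, h4, h5⟩ := result n ψ h0 hψ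
  refine ⟨D, h1, h2, h3, h4, fun k => ?_⟩
  have := h5 (EuclideanSpace.single k 1) (by simp)
  simpa [EuclideanSpace.inner_single_left] using this

/-- The posed question: first coordinate and the positive part of the logarithm. -/
theorem posed (n : ℕ) :
    ∃ D : Set (EuclideanSpace ℝ (Fin (n + 2))),
      IsOpen D ∧ IsConnected D ∧ ¬ Bornology.IsBounded D ∧
      (∃ h : EuclideanSpace ℝ (Fin (n + 2)) → ℝ,
        InnerProductSpace.HarmonicOnNhd h D ∧ ∀ x ∈ D, ‖x‖ ≤ h x) ∧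
      ¬ (∃ h : EuclideanSpace ℝ (Fin (n + 2)) → ℝ,
        InnerProductSpace.HarmonicOnNhd h D ∧
          ∀ x ∈ D, |x 0| * max (Real.log |x 0|) 0 ≤ h x) := by
  obtain ⟨D, h1, h2, h3, h4, h5⟩ := coordinates n (fun t => max (Real.log t) 0)
    (fun _ => le_max_right _ _)
    (Filter.tendsto_atTop_mono (fun _ => le_max_left _ _) Real.tendsto_log_atTop)
  exact ⟨D, h1, h2, h3, h4, h5 0⟩

/-- Convex gauges: exactly those of at most linear growth inherit a majorant on every domain. -/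
theorem convex_iff (n : ℕ) (F : ℝ → ℝ) (h0 : ∀ t, 0 ≤ t → 0 ≤ F t)
    (hc : ∀ s t c : ℝ, 0 ≤ s → 0 ≤ t → 0 ≤ c → c ≤ 1 →
      F (c * s + (1 - c) * t) ≤ c * F s + (1 - c) * F t) :
    (∀ D : Set (EuclideanSpace ℝ (Fin (n + 2))), IsOpen D → IsConnected D →
      (∃ h : EuclideanSpace ℝ (Fin (n + 2)) → ℝ,
        InnerProductSpace.HarmonicOnNhd h D ∧ ∀ x ∈ D, ‖x‖ ≤ h x) →
      ∃ h : EuclideanSpace ℝ (Fin (n + 2)) → ℝ,
        InnerProductSpace.HarmonicOnNhd h D ∧ ∀ x ∈ D, F |x 0| ≤ h x) ↔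
    ∃ C : ℝ, ∀ t, 0 ≤ t → F t ≤ C * (1 + t) :=
  Pool.Agent.P.MP_677f70_an.Ng.convex_iff n F h0 hc

end Pool.Agent.Results.MP_677f70_an.AllDirections
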