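import Pool.Agent.P.MP_677f70_an.GaLeast

set_option autoImplicit false

namespace Pool.Agent.Results.MP_677f70_an.ExactGauge

/-- The exact gain left by a growth bound on a harmonic majorant of the first coordinate. -/
theorem result (n : ℕ) (φ ψ : ℝ → ℝ) (hφ : MonotoneOn φ (Set.Ici 0))
    (h1 : ∀ t, 0 ≤ t → 1 ≤ φ t) (hψ : MonotoneOn ψ (Set.Ici 0)) (h0 : ∀ t, 0 ≤ t → 0 ≤ ψ t) :
    (∀ D : Set (EuclideanSpace ℝ (Fin (n + 2))), IsOpen D → IsConnected D →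
      (∃ h : EuclideanSpace ℝ (Fin (n + 2)) → ℝ,
        InnerProductSpace.HarmonicOnNhd h D ∧ ∀ x ∈ D, ‖x‖ ≤ h x) →
      (∃ (Ψ : EuclideanSpace ℝ (Fin (n + 2)) → ℝ) (C R : ℝ),
        InnerProductSpace.HarmonicOnNhd Ψ D ∧
          ∀ x ∈ D, |x 0| ≤ Ψ x ∧ (R ≤ ‖x‖ → Ψ x ≤ C * (‖x‖ * φ ‖x‖))) →
      ∃ H : EuclideanSpace ℝ (Fin (n + 2)) → ℝ,
        InnerProductSpace.HarmonicOnNhd H D ∧ ∀ x ∈ D, |x 0| * ψ |x 0| ≤ H x) ↔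
    ∃ A : ℝ, ∀ t, 1 ≤ t → ψ t ≤ A * (1 + ∫ s in (1 : ℝ)..t, 1 / (s * φ s)) :=
  Pool.Agent.P.MP_677f70_an.Ga.gauge_on n φ ψ hφ h1 hψ h0

/-- The posed question. -/
theorem posed (n : ℕ) :
    ∃ D : Set (EuclideanSpace ℝ (Fin (n + 2))), IsOpen D ∧ IsConnected D ∧
      (∃ h : EuclideanSpace ℝ (Fin (n + 2)) → ℝ,
        InnerProductSpace.HarmonicOnNhd h D ∧ ∀ x ∈ D, ‖x‖ ≤ h x) ∧
      ¬ (∃ h : EuclideanSpace ℝ (Fin (n + 2)) → ℝ,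
        InnerProductSpace.HarmonicOnNhd h D ∧
          ∀ x ∈ D, |x 0| * max (Real.log |x 0|) 0 ≤ h x) := by
  by_contra hc
  obtain ⟨A, hA⟩ := (result n (fun t => max t 1) (fun t => max (Real.log t) 0)
    (fun _ _ _ _ hab => max_le_max hab le_rfl) (fun _ _ => le_max_right _ _)
    Pool.Agent.P.MP_677f70_an.Ga.logp_mono (fun _ _ => le_max_right _ _)).1
    fun D d1 d2 d3 _ => by
      by_contra hn
      exact hc ⟨D, d1, d2, d3, hn⟩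
  have h1 : 1 ≤ Real.exp (2 * |A| + 1) := Real.one_le_exp (by positivity)
  have h2 := hA _ h1
  have h3 := Pool.Agent.P.MP_677f70_an.Ga.int_sq h1
  have h4 : 0 ≤ ∫ s in (1 : ℝ)..Real.exp (2 * |A| + 1), 1 / (s * max s 1) :=
    intervalIntegral.integral_nonneg h1 fun s hs => by
      have : 0 < s := by linarith [hs.1]
      positivity
  simp only [Real.log_exp] at h2
  have h5 := le_max_left (2 * |A| + 1) 0
  have h6 := mul_le_mul_of_nonneg_right (le_abs_self A) (by linarith :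
    0 ≤ 1 + ∫ s in (1 : ℝ)..Real.exp (2 * |A| + 1), 1 / (s * max s 1))
  have h7 := mul_le_mul_of_nonneg_left h3 (abs_nonneg A)
  linarith

/-- The posed question, the logarithm being written as an integral. -/
theorem posed_integral (n : ℕ) :
    ∃ D : Set (EuclideanSpace ℝ (Fin (n + 2))), IsOpen D ∧ IsConnected D ∧
      (∃ h : EuclideanSpace ℝ (Fin (n + 2)) → ℝ,
        InnerProductSpace.HarmonicOnNhd h D ∧ ∀ x ∈ D, ‖x‖ ≤ h x) ∧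
      ¬ (∃ h : EuclideanSpace ℝ (Fin (n + 2)) → ℝ,
        InnerProductSpace.HarmonicOnNhd h D ∧ ∀ x ∈ D, 0 ≤ h x ∧
          (1 ≤ |x 0| → |x 0| * ∫ s in (1 : ℝ)..|x 0|, 1 / (s * 1) ≤ h x)) := by
  obtain ⟨D, d1, d2, d3, d4⟩ := posed n
  refine ⟨D, d1, d2, d3, fun ⟨h, h1, h2⟩ => d4 ⟨h, h1, fun x hx => ?_⟩⟩
  rcases le_total 1 |x 0| with c | c
  · have := (h2 x hx).2 c
    rwa [Pool.Agent.P.MP_677f70_an.Ga.int_one c, ← max_eq_left (Real.log_nonneg c)] at this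
  · rw [max_eq_right (Real.log_nonpos (abs_nonneg _) c), mul_zero]
    exact (h2 x hx).1

/-- The listed theorem with linear growth is the case of a constant gauge. -/
theorem linear_growth (n : ℕ) (D : Set (EuclideanSpace ℝ (Fin (n + 2)))) (h1 : IsOpen D)
    (h2 : IsConnected D)
    (h3 : ∃ h : EuclideanSpace ℝ (Fin (n + 2)) → ℝ,
      InnerProductSpace.HarmonicOnNhd h D ∧ ∀ x ∈ D, ‖x‖ ≤ h x)
    (h4 : ∃ (Ψ : EuclideanSpace ℝ (Fin (n + 2)) → ℝ) (C R : ℝ),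
      InnerProductSpace.HarmonicOnNhd Ψ D ∧
        ∀ x ∈ D, |x 0| ≤ Ψ x ∧ (R ≤ ‖x‖ → Ψ x ≤ C * ‖x‖)) :
    ∃ H : EuclideanSpace ℝ (Fin (n + 2)) → ℝ,
      InnerProductSpace.HarmonicOnNhd H D ∧ ∀ x ∈ D, |x 0| * max (Real.log |x 0|) 0 ≤ H x := by
  refine (result n (fun _ => 1) (fun t => max (Real.log t) 0) (fun _ _ _ _ _ => le_rfl)
    (fun _ _ => le_rfl) Pool.Agent.P.MP_677f70_an.Ga.logp_mono
    (fun _ _ => le_max_right _ _)).2 ⟨1, fun t ht => ?_⟩ D h1 h2 h3 (by simpa using h4)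
  rw [Pool.Agent.P.MP_677f70_an.Ga.int_one ht]
  have := Real.log_nonneg ht
  exact max_le (by linarith) (by linarith)

/-- The logarithm survives exactly for bounded gauges. -/
theorem log_iff_bounded (n : ℕ) (φ : ℝ → ℝ) (hφ : MonotoneOn φ (Set.Ici 0))
    (h1 : ∀ t, 0 ≤ t → 1 ≤ φ t) :
    (∀ D : Set (EuclideanSpace ℝ (Fin (n + 2))), IsOpen D → IsConnected D →
      (∃ h : EuclideanSpace ℝ (Fin (n + 2)) → ℝ,
        InnerProductSpace.HarmonicOnNhd h D ∧ ∀ x ∈ D, ‖x‖ ≤ h x) →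
      (∃ (Ψ : EuclideanSpace ℝ (Fin (n + 2)) → ℝ) (C R : ℝ),
        InnerProductSpace.HarmonicOnNhd Ψ D ∧
          ∀ x ∈ D, |x 0| ≤ Ψ x ∧ (R ≤ ‖x‖ → Ψ x ≤ C * (‖x‖ * φ ‖x‖))) →
      ∃ H : EuclideanSpace ℝ (Fin (n + 2)) → ℝ,
        InnerProductSpace.HarmonicOnNhd H D ∧
          ∀ x ∈ D, |x 0| * max (Real.log |x 0|) 0 ≤ H x) ↔
    ∃ M : ℝ, ∀ t, 0 ≤ t → φ t ≤ M :=
  (result n φ (fun t => max (Real.log t) 0) hφ h1 Pool.Agent.P.MP_677f70_an.Ga.logp_mono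
    (fun _ _ => le_max_right _ _)).trans (Pool.Agent.P.MP_677f70_an.Ga.log_iff hφ h1)

/-- The same equivalence when the growth bound is asked of the least harmonic majorant. -/
theorem least_form (n : ℕ) (φ ψ : ℝ → ℝ) (hφ : MonotoneOn φ (Set.Ici 0))
    (h1 : ∀ t, 0 ≤ t → 1 ≤ φ t) (hψ : MonotoneOn ψ (Set.Ici 0)) (h0 : ∀ t, 0 ≤ t → 0 ≤ ψ t) :
    (∀ D : Set (EuclideanSpace ℝ (Fin (n + 2))), IsOpen D → IsConnected D →
      (∃ h : EuclideanSpace ℝ (Fin (n + 2)) → ℝ,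
        InnerProductSpace.HarmonicOnNhd h D ∧ ∀ x ∈ D, ‖x‖ ≤ h x) →
      ∀ Ψ : EuclideanSpace ℝ (Fin (n + 2)) → ℝ,
        InnerProductSpace.HarmonicOnNhd Ψ D → (∀ x ∈ D, |x 0| ≤ Ψ x) →
        (∀ h : EuclideanSpace ℝ (Fin (n + 2)) → ℝ, InnerProductSpace.HarmonicOnNhd h D →
          (∀ x ∈ D, |x 0| ≤ h x) → ∀ x ∈ D, Ψ x ≤ h x) →
        (∃ C R : ℝ, ∀ x ∈ D, R ≤ ‖x‖ → Ψ x ≤ C * (‖x‖ * φ ‖x‖)) →
      ∃ H : EuclideanSpace ℝ (Fin (n + 2)) → ℝ,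
        InnerProductSpace.HarmonicOnNhd H D ∧ ∀ x ∈ D, |x 0| * ψ |x 0| ≤ H x) ↔
    ∃ A : ℝ, ∀ t, 1 ≤ t → ψ t ≤ A * (1 + ∫ s in (1 : ℝ)..t, 1 / (s * φ s)) := by
  rw [← result n φ ψ hφ h1 hψ h0]
  constructor
  · rintro hA D d1 d2 d3 ⟨Ψ, C, R, d4, d5⟩
    obtain ⟨P, p1, p2, p3⟩ :=
      Pool.Agent.P.MP_677f70_an.Ga.least_exists n d1 d4 fun x hx => (d5 x hx).1
    exact hA D d1 d2 d3 P p1 p2 p3 ⟨C, R, fun x hx hR =>
      (p3 Ψ d4 (fun y hy => (d5 y hy).1) x hx).trans ((d5 x hx).2 hR)⟩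
  · rintro hA D d1 d2 d3 Ψ d4 d5 - ⟨C, R, d6⟩
    exact hA D d1 d2 d3 ⟨Ψ, C, R, d4, fun x hx => ⟨d5 x hx, d6 x hx⟩⟩

end Pool.Agent.Results.MP_677f70_an.ExactGauge
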